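import Pool.Agent.Helper69.SW.St

/-! # Project SW (MP_65faa7, bulk case, block S), module Phi -/

set_option autoImplicit false

open scoped BigOperators ENNReal Topology
open Pool.LE Pool.NL Pool.CL Pool.CB Filter

namespace Pool.SW

theorem hPhi : StPhi := by
  intro V θ θ₁ hV hθ hθ₁
  have hr : 1 < θ₁ / θ := (one_lt_div hθ).2 hθ₁
  obtain ⟨r, hrdef⟩ : ∃ r : ℝ, r = θ₁ / θ := ⟨_, rfl⟩
  rw [← hrdef] at hr
  have hθr : θ * r = θ₁ := by rw [hrdef]; field_simp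
  obtain ⟨α, hα⟩ : ∃ α : ℝ, α = (1 + r) / 2 := ⟨_, rfl⟩
  have hα1 : 1 < α := by linarith
  have hαr : α < r := by linarith
  obtain ⟨η, hη⟩ : ∃ η : ℝ, η = r / α - 1 := ⟨_, rfl⟩
  have hη0 : 0 < η := by
    rw [hη, sub_pos]
    exact (one_lt_div (by linarith)).2 hαr
  have hηα : (1 + η) * α = r := by
    rw [hη]
    have : α ≠ 0 := by linarith
    field_simp
    ring
  obtain ⟨B, hB⟩ : ∃ B : ℝ, B = V / 2 * (α - 1) / (θ * (1 + 1 / η)) := ⟨_, rfl⟩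
  have hden : 0 < θ * (1 + 1 / η) := by positivity
  have hB0 : 0 < B := by
    rw [hB]
    apply div_pos _ hden
    apply mul_pos (by linarith)
    linarith
  have hBe : θ * (1 + 1 / η) * B = V / 2 * (α - 1) := by
    rw [hB]
    field_simp
  refine ⟨α, Real.sqrt B, hα1, Real.sqrt_pos.2 hB0, ?_⟩
  obtain ⟨β, hβ⟩ : ∃ β : ℝ, β = Real.sqrt B := ⟨_, rfl⟩
  rw [← hβ]
  have hβ0 : 0 < β := by rw [hβ]; exact Real.sqrt_pos.2 hB0
  have hβ2 : β ^ 2 = B := by rw [hβ]; exact Real.sq_sqrt hB0.le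
  intro u ψ hu hψ0 hψ1
  have hs : 0 < α + β * u := by positivity
  have key : θ * (α + β * u) ^ 2 ≤ α * θ₁ + V / 2 * (α - 1) * u ^ 2 := by
    have h1 : 2 * α * (β * u) ≤ η * α ^ 2 + 1 / η * (β * u) ^ 2 := by
      have h2 : η * α ^ 2 + 1 / η * (β * u) ^ 2 - 2 * α * (β * u) = 1 / η * (η * α - β * u) ^ 2 := by
        field_simp
        ring
      have h3 : 0 ≤ 1 / η * (η * α - β * u) ^ 2 := by positivity
      linarith
    have h4 : (α + β * u) ^ 2 ≤ (1 + η) * α ^ 2 + (1 + 1 / η) * (β * u) ^ 2 := by nlinarith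
    calc θ * (α + β * u) ^ 2 ≤ θ * ((1 + η) * α ^ 2 + (1 + 1 / η) * (β * u) ^ 2) :=
          mul_le_mul_of_nonneg_left h4 hθ.le
      _ = θ * ((1 + η) * α) * α + θ * (1 + 1 / η) * β ^ 2 * u ^ 2 := by ring
      _ = α * θ₁ + V / 2 * (α - 1) * u ^ 2 := by rw [hηα, hβ2, hBe, hθr]; ring
  have h5 : θ * ψ * (α + β * u) ^ 2 ≤ α * θ₁ * ψ + V / 2 * (α - 1) * u ^ 2 := by
    have h6 : 0 ≤ V / 2 * (α - 1) * u ^ 2 := by
      have : 0 ≤ α - 1 := by linarith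
      positivity
    nlinarith [mul_le_mul_of_nonneg_left key hψ0, mul_le_mul_of_nonneg_right hψ1 h6]
  have e1 : θ * ψ + V / 2 * (u / (α + β * u)) ^ 2 =
      (θ * ψ * (α + β * u) ^ 2 + V / 2 * u ^ 2) / (α + β * u) ^ 2 := by
    field_simp
  have e2 : α / (α + β * u) ^ 2 * (θ₁ * ψ + V / 2 * u ^ 2) =
      (α * θ₁ * ψ + α * (V / 2) * u ^ 2) / (α + β * u) ^ 2 := by
    field_simp
  rw [e1, e2]
  apply div_le_div_of_nonneg_right _ (by positivity)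
  nlinarith

end Pool.SW
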